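import Pool.Agent.L5helper12.CV.Defs
import Pool.Agent.L5helper10.CV.S1

/-! The prime side: the Dirichlet series of `-ζ'/ζ` on the line `Re s = 3/2` against the Gaussian test
function times the multiplier is the windowed transform of the error term plus the pole. -/

set_option autoImplicit false

open Filter Topology Set MeasureTheory Complex
open H370 hiding g0

namespace Pool.Agent.L5helper12.CV

open Pool.Agent.L5helper10.TV hiding GG
open Pool.Agent.L5helper10.CV (KG KG_cont M0 M0_eq SS_eq1)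

lemma om_win : Win om 1 where
  cont := by unfold om; fun_prop
  bd x := by
    unfold om
    rw [abs_of_pos (Real.exp_pos _), one_mul]
    apply Real.exp_le_exp.2
    nlinarith [sq_nonneg x]

lemma om_eq_g0 : om = Pool.Agent.L5helper10.TV.g0 := rfl

lemma cv1_mk_cont (κ σ : ℝ) : Continuous (fun v : ℝ => Mk κ (⟨σ, v⟩ : ℂ)) := by
  have e : (fun v : ℝ => Mk κ (⟨σ, v⟩ : ℂ)) =
      fun v : ℝ => ∫ x in (-(κ / 2))..(κ / 2), cexp (x * ((σ : ℂ) + v * I)) := by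
    funext v
    unfold Mk
    rw [mk_eq]
  rw [e]
  apply intervalIntegral.continuous_parametric_intervalIntegral_of_continuous'
  fun_prop

lemma cv1_mk_norm (κ : ℝ) (hκ0 : 0 < κ) (hκ : κ ≤ 1) (v : ℝ) : ‖Mk κ (⟨3 / 2, v⟩ : ℂ)‖ ≤ Real.exp 1 := by
  unfold Mk
  have h := intervalIntegral.norm_integral_le_of_norm_le_const (a := -(κ / 2)) (b := κ / 2) (C := Real.exp 1)
    (f := fun x : ℝ => cexp (x * (⟨3 / 2, v⟩ : ℂ))) ?_
  · refine h.trans ?_
    rw [show κ / 2 - -(κ / 2) = κ by ring, abs_of_pos hκ0]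
    nlinarith [Real.exp_pos 1]
  · intro x hx
    rw [uIoc_of_le (by linarith)] at hx
    rw [Complex.norm_exp, Complex.re_ofReal_mul]
    apply Real.exp_le_exp.2
    simp only
    nlinarith [hx.1, hx.2]

/-- one frequency -/
lemma cv1_freq (κ : ℝ) (hκ0 : 0 < κ) (hκ : κ ≤ 1) (u t ℓ : ℝ) (hℓ : 0 ≤ ℓ) :
    ∫ v : ℝ, hh u t (⟨3 / 2, v⟩ : ℂ) * cexp (-(ℓ : ℂ) * (⟨3 / 2, v⟩ : ℂ)) * Mk κ (⟨3 / 2, v⟩ : ℂ) =
      Real.sqrt (2 * Real.pi) * ∫ v in (ℓ - κ / 2)..(ℓ + κ / 2), KG u t v := by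
  have hle : -(κ / 2) ≤ κ / 2 := by linarith
  set G : ℝ → ℝ → ℂ := fun v x => hh u t (⟨3 / 2, v⟩ : ℂ) * cexp (-((ℓ - x : ℝ) : ℂ) * (⟨3 / 2, v⟩ : ℂ)) with hG
  have e1 : ∀ v : ℝ, hh u t (⟨3 / 2, v⟩ : ℂ) * cexp (-(ℓ : ℂ) * (⟨3 / 2, v⟩ : ℂ)) * Mk κ (⟨3 / 2, v⟩ : ℂ) =
      ∫ x in Ioc (-(κ / 2)) (κ / 2), G v x := by
    intro v
    unfold Mk
    rw [intervalIntegral.integral_of_le hle, ← integral_const_mul]
    apply integral_congr_ae
    refine Eventually.of_forall fun x => ?_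
    simp only [hG]
    rw [mul_assoc, ← Complex.exp_add]
    congr 2
    push_cast
    ring
  simp_rw [e1]
  have hcont : Continuous (Function.uncurry G) := by
    have : Function.uncurry G = fun p : ℝ × ℝ => hh u t (((3 / 2 : ℝ) : ℂ) + p.1 * I) *
        cexp (-((ℓ - p.2 : ℝ) : ℂ) * (((3 / 2 : ℝ) : ℂ) + p.1 * I)) := by
      funext p
      simp only [Function.uncurry, hG]
      rw [mk_eq]
    rw [this]
    exact ((hh_diff u t).continuous.comp (by fun_prop)).mul (by fun_prop)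
  have hint : Integrable (Function.uncurry G) (volume.prod (volume.restrict (Ioc (-(κ / 2)) (κ / 2)))) := by
    have hg1 : Integrable (fun v : ℝ => Real.exp (u * (3 / 2 - 1 / 2)) * Real.exp (1 / 2) *
      Real.exp (-(1 / 2) * (v - t) ^ 2)) := (gauss_int t (1 / 2) (by norm_num)).const_mul _
    have hg2 : Integrable (fun _ : ℝ => Real.exp 1) (volume.restrict (Ioc (-(κ / 2)) (κ / 2))) :=
      integrable_const _
    have hg := hg1.mul_prod hg2
    refine hg.mono' hcont.aestronglyMeasurable ?_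
    have hae : ∀ᵐ p : ℝ × ℝ ∂(volume.prod (volume.restrict (Ioc (-(κ / 2)) (κ / 2)))),
        p.2 ∈ Ioc (-(κ / 2)) (κ / 2) := by
      have h0 : ∀ᵐ x : ℝ ∂(volume.restrict (Ioc (-(κ / 2)) (κ / 2))), x ∈ Ioc (-(κ / 2)) (κ / 2) :=
        ae_restrict_mem measurableSet_Ioc
      exact Measure.quasiMeasurePreserving_snd.ae h0
    filter_upwards [hae] with p hp
    simp only [Function.uncurry, hG]
    rw [norm_mul, norm_hh]
    have a1 : ‖cexp (-((ℓ - p.2 : ℝ) : ℂ) * (⟨3 / 2, p.1⟩ : ℂ))‖ ≤ Real.exp 1 := by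
      rw [← Complex.ofReal_neg, Complex.norm_exp, Complex.re_ofReal_mul]
      apply Real.exp_le_exp.2
      simp only
      nlinarith [hp.1, hp.2]
    have a2 : Real.exp (u * (3 / 2 - 1 / 2)) * Real.exp (((3 / 2 - 1 / 2 : ℝ) ^ 2 - (p.1 - t) ^ 2) / 2) =
        Real.exp (u * (3 / 2 - 1 / 2)) * Real.exp (1 / 2) * Real.exp (-(1 / 2) * (p.1 - t) ^ 2) := by
      rw [mul_assoc, ← Real.exp_add (1 / 2)]
      congr 2; ring
    rw [a2]
    exact mul_le_mul_of_nonneg_left a1 (by positivity)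
  rw [integral_integral_swap hint]
  have e2 : ∀ x : ℝ, ∫ v : ℝ, G v x = Real.sqrt (2 * Real.pi) * KG u t (ℓ - x) := by
    intro x
    simp only [hG]
    rw [gauss_line]
    unfold KG Pool.Agent.L5helper10.TV.gg
    push_cast
    ring
  simp_rw [e2]
  rw [← intervalIntegral.integral_of_le hle, intervalIntegral.integral_const_mul,
    intervalIntegral.integral_comp_sub_left (fun v => KG u t v)]
  congr 2
  ring

/-- the left side as a sum over the prime powers -/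
lemma cv1_sum (κ : ℝ) (hκ0 : 0 < κ) (hκ : κ ≤ 1) (u t : ℝ) :
    ∫ v : ℝ, DD lamc (⟨3 / 2, v⟩ : ℂ) * (hh u t (⟨3 / 2, v⟩ : ℂ) * Mk κ (⟨3 / 2, v⟩ : ℂ)) =
      Real.sqrt (2 * Real.pi) *
        ∑' n : ℕ, lamc n * ∫ v in (Real.log n - κ / 2)..(Real.log n + κ / 2), KG u t v := by
  set f : ℕ → ℝ → ℂ := fun n v => lamc n * (n : ℂ) ^ (-(⟨3 / 2, v⟩ : ℂ)) *
    (hh u t (⟨3 / 2, v⟩ : ℂ) * Mk κ (⟨3 / 2, v⟩ : ℂ)) with hf
  have hcl := hh_cont_line u t (3 / 2)
  have hnb : ∀ n v, ‖f n v‖ ≤ (ArithmeticFunction.vonMangoldt n * (n : ℝ) ^ (-(3 / 2 : ℝ))) *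
      (Real.exp (u * (3 / 2 - 1 / 2)) * Real.exp (1 / 2) * Real.exp 1 * Real.exp (-(1 / 2) * (v - t) ^ 2)) := by
    intro n v
    simp only [hf]
    rw [norm_mul, norm_mul (hh u t _), norm_hh]
    apply mul_le_mul (norm_npow n v (lamc n) (lamc_norm n)) _ (by positivity)
      (mul_nonneg ArithmeticFunction.vonMangoldt_nonneg (by positivity))
    have a2 : Real.exp (u * (3 / 2 - 1 / 2)) * Real.exp (((3 / 2 - 1 / 2 : ℝ) ^ 2 - (v - t) ^ 2) / 2) =
        Real.exp (u * (3 / 2 - 1 / 2)) * Real.exp (1 / 2) * Real.exp (-(1 / 2) * (v - t) ^ 2) := by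
      rw [mul_assoc, ← Real.exp_add (1 / 2)]
      congr 2; ring
    rw [a2]
    calc Real.exp (u * (3 / 2 - 1 / 2)) * Real.exp (1 / 2) * Real.exp (-(1 / 2) * (v - t) ^ 2) *
        ‖Mk κ (⟨3 / 2, v⟩ : ℂ)‖ ≤ Real.exp (u * (3 / 2 - 1 / 2)) * Real.exp (1 / 2) *
        Real.exp (-(1 / 2) * (v - t) ^ 2) * Real.exp 1 :=
          mul_le_mul_of_nonneg_left (cv1_mk_norm κ hκ0 hκ v) (by positivity)
      _ = _ := by ring
  have hcont : ∀ n, Continuous (f n) := by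
    intro n
    rcases Nat.eq_zero_or_pos n with h | h
    · have h0 : lamc n = 0 := by rw [h]; simp [lamc]
      simp only [hf, h0, zero_mul]
      exact continuous_const
    · simp only [hf]
      have : (fun v : ℝ => lamc n * (n : ℂ) ^ (-(⟨3 / 2, v⟩ : ℂ))) =
          fun v : ℝ => lamc n * cexp (-((Real.log n : ℝ) : ℂ) * ((3 / 2 : ℝ) + v * I)) := by
        funext v
        rw [H370.term_eq n h, mk_eq]
      refine Continuous.mul ?_ (hcl.mul (cv1_mk_cont κ _))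
      rw [this]
      fun_prop
  have hG : Integrable (fun v : ℝ => Real.exp (u * (3 / 2 - 1 / 2)) * Real.exp (1 / 2) * Real.exp 1 *
      Real.exp (-(1 / 2) * (v - t) ^ 2)) := (gauss_int t (1 / 2) (by norm_num)).const_mul _
  have hint : ∀ n, Integrable (f n) := fun n =>
    (hG.const_mul (ArithmeticFunction.vonMangoldt n * (n : ℝ) ^ (-(3 / 2 : ℝ)))).mono'
      (hcont n).aestronglyMeasurable (Eventually.of_forall (hnb n))
  have hsum : Summable fun n => ∫ v, ‖f n v‖ := by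
    refine Summable.of_nonneg_of_le (fun n => integral_nonneg fun v => norm_nonneg _) (fun n => ?_)
      (lam_summable.mul_right (∫ v : ℝ, Real.exp (u * (3 / 2 - 1 / 2)) * Real.exp (1 / 2) * Real.exp 1 *
      Real.exp (-(1 / 2) * (v - t) ^ 2)))
    rw [← integral_const_mul]
    exact integral_mono (hint n).norm (hG.const_mul _) (fun v => hnb n v)
  have key := hasSum_integral_of_summable_integral_norm hint hsum
  have e1 : (fun v : ℝ => DD lamc (⟨3 / 2, v⟩ : ℂ) * (hh u t (⟨3 / 2, v⟩ : ℂ) * Mk κ (⟨3 / 2, v⟩ : ℂ))) =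
      fun v => ∑' n, f n v := by
    funext v
    simp only [hf, DD]
    rw [tsum_mul_right]
  rw [e1, ← key.tsum_eq, ← tsum_mul_left]
  congr 1
  funext n
  rcases Nat.eq_zero_or_pos n with h | h
  · have h0 : lamc n = 0 := by rw [h]; simp [lamc]
    simp [hf, h0]
  · have e2 : ∀ v : ℝ, f n v = lamc n * (hh u t (⟨3 / 2, v⟩ : ℂ) *
        cexp (-((Real.log n : ℝ) : ℂ) * (⟨3 / 2, v⟩ : ℂ)) * Mk κ (⟨3 / 2, v⟩ : ℂ)) := by
      intro v
      simp only [hf]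
      rw [H370.term_eq n h]
      ring
    simp_rw [e2]
    rw [integral_const_mul, cv1_freq κ hκ0 hκ u t (Real.log n) (Real.log_natCast_nonneg n)]
    ring

lemma cv1_M0 (u t : ℝ) : M0 u t = Real.sqrt (2 * Real.pi) * hh u t 1 := by
  unfold M0
  simp_rw [M0_eq]
  rw [integral_cexp_quadratic (by norm_num)]
  have h1 : ((Real.pi : ℂ) / -(-(1 / 2))) ^ (1 / 2 : ℂ) = (Real.sqrt (2 * Real.pi) : ℂ) := by
    have : (Real.pi : ℂ) / -(-(1 / 2)) = ((2 * Real.pi : ℝ) : ℂ) := by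
      push_cast; ring
    rw [this, Real.sqrt_eq_rpow, Complex.ofReal_cpow (by positivity)]
    norm_num
  rw [h1]
  congr 1
  unfold hh
  rw [← Complex.exp_add]
  congr 1
  ring

lemma cv1_Mk1 (κ : ℝ) : Mk κ 1 = ((2 * Real.sinh (κ / 2) : ℝ) : ℂ) := by
  unfold Mk
  have e : ∀ x : ℝ, cexp (x * 1) = ((Real.exp x : ℝ) : ℂ) := by
    intro x; rw [mul_one, Complex.ofReal_exp]
  simp_rw [e]
  rw [intervalIntegral.integral_ofReal, integral_exp, Real.sinh_eq]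
  congr 1
  ring

theorem prime_side (κ : ℝ) (hκ0 : 0 < κ) (hκ : κ ≤ 1) (u t : ℝ) :
    ∫ v : ℝ, DD lamc (⟨3 / 2, v⟩ : ℂ) * (hh u t (⟨3 / 2, v⟩ : ℂ) * Mk κ (⟨3 / 2, v⟩ : ℂ)) =
      Real.sqrt (2 * Real.pi) * (SS κ om u t + Real.sqrt (2 * Real.pi) * (Mk κ 1 * hh u t 1)) := by
  rw [cv1_sum κ hκ0 hκ u t, om_eq_g0, SS_eq1 κ u t hκ0 hκ, cv1_M0, cv1_Mk1]
  ring

end Pool.Agent.L5helper12.CV
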